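import Pool.Agent.Lib.MP_062ce2_co.Example

namespace Pool.Agent.Results.MP_062ce2_co.LooplessPair

open Pool.Agent.Lib.MP_062ce2_co

/-- There are two non-isomorphic loopless graphs with the same U-polynomial and different strong
U-polynomials. -/
theorem result :
    ∃ (n m n' m' : ℕ) (G : MGraph n m) (H : MGraph n' m'),
      G.Loopless ∧ H.Loopless ∧ ¬ G.Iso H ∧ G.U = H.U ∧ G.strongU ≠ H.strongU :=
  ⟨6, 9, 6, 9, ofPairs 6 9 epG, ofPairs 6 9 epH,
    loopless_G, loopless_H, not_iso, U_G_eq_H, strong_ne⟩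

end Pool.Agent.Results.MP_062ce2_co.LooplessPair
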